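import Pool.Agent.W424.FR.Defs

/-!
The limit: dimension bound for the boundaries of the components of the complement of the path
(FR-LIM, project FR of helper424).
-/

set_option autoImplicit false

namespace Pool.Agent.W743.FR

open MeasureTheory Filter Topology
open Pool.Agent.W424.FR Pool.Agent.W462.DPL
open scoped ENNReal NNReal

/-- the paths of the plane -/
abbrev Cu := C(unitInterval, ℂ)

/-- the union over all margins -/
def EvQ (z : ℂ) (r ρ : ℝ) : Set Cu := ⋃ j : ℕ, EvH z r ρ (1 / ((j : ℝ) + 1))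

theorem EvQ_open (hOP : S_OP) (z : ℂ) (r ρ : ℝ) : IsOpen (EvQ z r ρ) :=
  isOpen_iUnion fun _ => hOP _ _ _ _

theorem EvH_mono {z : ℂ} {r ρ ζ ζ' : ℝ} (h : ζ' ≤ ζ) : EvH z r ρ ζ ⊆ EvH z r ρ ζ' := by
  rintro c ⟨t, h1, h2, g, g0, g1, hg⟩
  exact ⟨t, h1, h2, g, g0, g1, fun s hs u => lt_of_le_of_lt h (hg s hs u)⟩

/-- The set whose dimension is bounded. -/
def SOH (η : ℝ) (f : Cu) : Set ℂ :=
  {w | ∃ t : unitInterval, ∃ y : ℂ, η ≤ dist (f t) w ∧ y ∉ f '' Set.Iic t ∧ η ≤ dist y w ∧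
    w ∈ frontier (connectedComponentIn (f '' Set.Iic t)ᶜ y)}

theorem EvQ_of (hEV : S_EV) {η r ρ : ℝ} {f : Cu} {z w : ℂ} (hw : w ∈ SOH η f)
    (hwz : dist w z < r) (hρ : ρ + r ≤ η) : f ∈ EvQ z r ρ := by
  obtain ⟨t, y, h1, h2, h3, h4⟩ := hw
  exact Set.mem_iUnion.2 (hEV f w t y η h1 h2 h3 h4 z r ρ hwz hρ)

open Classical in
/-- the event which belongs to a covering set -/
noncomputable def HO (D : Set ℂ) (d N : ℝ) (a b : ℤ) : Set Cu :=
  if h : (H934F.t10_sq N a b ∩ H934F.t10_A D d).Nonempty then EvQ h.some (2 / N) (d / 2) else ∅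

theorem HO_open (hOP : S_OP) (D : Set ℂ) (d N : ℝ) (a b : ℤ) : IsOpen (HO D d N a b) := by
  unfold HO
  split_ifs
  · exact EvQ_open hOP _ _ _
  · exact isOpen_empty

theorem HO_of (hEV : S_EV) {D : Set ℂ} {d N η : ℝ} (hdη : d ≤ η) (hN : 2 / N ≤ d / 2) {a b : ℤ}
    {p : Cu} {A : Set ℂ} (h : ((SOH η p ∩ A) ∩ H934F.t10_U D d N a b).Nonempty) :
    p ∈ HO D d N a b := by
  obtain ⟨w, ⟨hw1, _⟩, hw2⟩ := h
  unfold H934F.t10_U at hw2
  unfold HO
  split_ifs at hw2 ⊢ with h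
  · rw [Metric.mem_ball] at hw2
    exact EvQ_of hEV hw1 hw2 (by linarith)
  · exact absurd hw2 (Set.notMem_empty _)

/-- one scale -/
theorem one_scaleO (hOP : S_OP) (hEV : S_EV) {D : Set ℂ} {M : ℕ}
    (hM : ∀ z ∈ D, |z.re| < M ∧ |z.im| < M) {C d η a : ℝ}
    (hd : 0 < d) (hdη : d ≤ η) {μ : ProbabilityMeasure Cu}
    (hp : ∀ (z : ℂ) (r : ℝ), 0 < r → r ≤ d → Metric.ball z d ⊆ D →
      (μ : Measure Cu) (EvQ z r (d / 2)) ≤ ENNReal.ofReal (C * (r / d) ^ a)) {t : ℝ}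
    (ht0 : 0 < t) (ht : 2 - a < t) :
    ∀ᵐ p ∂(μ : Measure Cu), dimH (SOH η p ∩ H934F.t10_A D d) ≤ ENNReal.ofReal t := by
  obtain ⟨m1, hm1⟩ := exists_nat_gt (4 / d)
  set m0 : ℕ := m1 + 1 with hm0
  have hN : ∀ m : ℕ, (0 : ℝ) < ((m + m0 : ℕ) : ℝ) := by
    intro m
    have : 0 < m + m0 := by omega
    exact_mod_cast this
  have hNd : ∀ m : ℕ, 2 / ((m + m0 : ℕ) : ℝ) ≤ d / 2 := by
    intro m
    rw [div_le_iff₀ (hN m)]
    rw [div_lt_iff₀ hd] at hm1
    have : (m1 : ℝ) ≤ ((m + m0 : ℕ) : ℝ) := by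
      have : m1 ≤ m + m0 := by omega
      exact_mod_cast this
    nlinarith
  have hsub : H934F.t10_A D d ⊆ D := fun z hz => hz (Metric.mem_ball_self hd)
  have hμ : Tendsto (fun _ : ℕ => μ) atTop (𝓝 μ) := tendsto_const_nhds
  refine upperG ht0 hμ (fun p => SOH η p ∩ H934F.t10_A D d)
    (ι := fun m => Fin (2 * M * (m + m0)) × Fin (2 * M * (m + m0)))
    (fun m i => H934F.t10_U D d ((m + m0 : ℕ) : ℝ) ((i.1 : ℕ) - (M * (m + m0) : ℕ) : ℤ)
      ((i.2 : ℕ) - (M * (m + m0) : ℕ) : ℤ))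
    (fun m i => HO D d ((m + m0 : ℕ) : ℝ) ((i.1 : ℕ) - (M * (m + m0) : ℕ) : ℤ)
      ((i.2 : ℕ) - (M * (m + m0) : ℕ) : ℤ))
    (fun m i => HO_open hOP _ _ _ _ _) (fun m i p h => HO_of hEV hdη (hNd m) h)
    (fun m => ENNReal.ofReal (4 / ((m + m0 : ℕ) : ℝ))) ?_
    (fun m i => H934F.t10_U_ediam _ _ _ _ _)
    ?_ (fun m _ => ENNReal.ofReal (C * ((2 / ((m + m0 : ℕ) : ℝ)) / d) ^ a)) ?_ ?_
  · -- the radii tend to zero
    have h1 : Tendsto (fun m : ℕ => ((m + m0 : ℕ) : ℝ)) atTop atTop :=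
      tendsto_natCast_atTop_atTop.comp (tendsto_add_atTop_nat m0)
    have h2 : Tendsto (fun m : ℕ => 4 / ((m + m0 : ℕ) : ℝ)) atTop (𝓝 0) :=
      h1.const_div_atTop 4
    have h3 := ENNReal.tendsto_ofReal h2
    rwa [ENNReal.ofReal_zero] at h3
  · -- covering
    rintro m p z ⟨_, hz⟩
    obtain ⟨h1, h2⟩ := hM z (hsub hz)
    have hb : ∀ y : ℝ, |y| < M → -((M * (m + m0) : ℕ) : ℤ) ≤ ⌊((m + m0 : ℕ) : ℝ) * y⌋ ∧
        ⌊((m + m0 : ℕ) : ℝ) * y⌋ < ((M * (m + m0) : ℕ) : ℤ) := by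
      intro y hy
      rw [abs_lt] at hy
      have hn := hN m
      constructor
      · rw [Int.le_floor]
        push_cast at hn ⊢
        nlinarith
      · rw [Int.floor_lt]
        push_cast at hn ⊢
        nlinarith
    obtain ⟨h3, h4⟩ := hb _ h1
    obtain ⟨h5, h6⟩ := hb _ h2
    refine Set.mem_iUnion.mpr ⟨(⟨(⌊((m + m0 : ℕ) : ℝ) * z.re⌋ + (M * (m + m0) : ℕ)).toNat, ?_⟩,
      ⟨(⌊((m + m0 : ℕ) : ℝ) * z.im⌋ + (M * (m + m0) : ℕ)).toNat, ?_⟩), ?_⟩
    · rw [Int.toNat_lt (by omega)]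
      have : ((2 * M * (m + m0) : ℕ) : ℤ) = 2 * ((M * (m + m0) : ℕ) : ℤ) := by
        push_cast; ring
      omega
    · rw [Int.toNat_lt (by omega)]
      have : ((2 * M * (m + m0) : ℕ) : ℤ) = 2 * ((M * (m + m0) : ℕ) : ℤ) := by
        push_cast; ring
      omega
    · have hcov := H934F.t10_U_cover (N := ((m + m0 : ℕ) : ℝ)) (hN m) hz
      simp only
      rw [Int.toNat_of_nonneg (by omega), Int.toNat_of_nonneg (by omega)]
      rw [add_sub_cancel_right, add_sub_cancel_right]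
      exact hcov
  · -- probabilities
    intro m i
    refine (Eventually.of_forall fun n => ?_).frequently
    unfold HO
    split_ifs with h
    · exact hp h.some (2 / ((m + m0 : ℕ) : ℝ)) (div_pos two_pos (hN m))
        ((hNd m).trans (by linarith)) h.some_mem.2
    · rw [measure_empty]
      exact zero_le
  · -- the sums tend to zero
    have hl := ENNReal.tendsto_ofReal (Pool.Agent.W424.OD.lim0 M C d t a hd ht m0 (by omega))
    rw [ENNReal.ofReal_zero] at hl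
    refine tendsto_of_tendsto_of_tendsto_of_le_of_le tendsto_const_nhds hl
      (fun m => zero_le) (fun m => ?_)
    have hn := hN m
    have h4 : 0 ≤ (4 : ℝ) / ((m + m0 : ℕ) : ℝ) := by positivity
    calc ∑ i : Fin (2 * M * (m + m0)) × Fin (2 * M * (m + m0)),
          Metric.ediam (H934F.t10_U D d ((m + m0 : ℕ) : ℝ) ((i.1 : ℕ) - (M * (m + m0) : ℕ) : ℤ)
            ((i.2 : ℕ) - (M * (m + m0) : ℕ) : ℤ)) ^ t *
            ENNReal.ofReal (C * ((2 / ((m + m0 : ℕ) : ℝ)) / d) ^ a)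
        ≤ ∑ _i : Fin (2 * M * (m + m0)) × Fin (2 * M * (m + m0)),
          ENNReal.ofReal ((4 / ((m + m0 : ℕ) : ℝ)) ^ t *
            (C * ((2 / ((m + m0 : ℕ) : ℝ)) / d) ^ a)) := by
          refine Finset.sum_le_sum fun i _ => ?_
          have e5 : ENNReal.ofReal ((4 / ((m + m0 : ℕ) : ℝ)) ^ t *
              (C * ((2 / ((m + m0 : ℕ) : ℝ)) / d) ^ a)) =
              ENNReal.ofReal (4 / ((m + m0 : ℕ) : ℝ)) ^ t *
                ENNReal.ofReal (C * ((2 / ((m + m0 : ℕ) : ℝ)) / d) ^ a) := by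
            rw [ENNReal.ofReal_mul (by positivity), ENNReal.ofReal_rpow_of_nonneg h4 ht0.le]
          rw [e5]
          gcongr
          exact H934F.t10_U_ediam _ _ _ _ _
      _ ≤ ENNReal.ofReal ((2 * M * ((m + m0 : ℕ) : ℝ)) ^ 2 * ((4 / ((m + m0 : ℕ) : ℝ)) ^ t *
            (C * ((2 / ((m + m0 : ℕ) : ℝ)) / d) ^ a))) := by
          have e : (2 * (M : ℝ) * ((m + m0 : ℕ) : ℝ)) ^ 2 =
              ((2 * M * (m + m0) * (2 * M * (m + m0)) : ℕ) : ℝ) := by
            push_cast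
            ring
          rw [Finset.sum_const, Finset.card_univ, Fintype.card_prod, Fintype.card_fin,
            nsmul_eq_mul, e, ENNReal.ofReal_mul (Nat.cast_nonneg _), ENNReal.ofReal_natCast]

/-- the bound for the limit law -/
theorem mu_le (hOP : S_OP) {D : Set ℂ} {a C : ℝ} {μs : ℕ → ProbabilityMeasure Cu}
    {μ : ProbabilityMeasure Cu} (hμ : Tendsto μs atTop (𝓝 μ))
    (hP : ∀ (z : ℂ) (r d ζ : ℝ), 0 < r → r ≤ d → Metric.ball z d ⊆ D → 0 < ζ →
      ∀ᶠ i in atTop, (μs i : Measure Cu) (EvH z r (d / 2) ζ) ≤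
        ENNReal.ofReal (C * (r / d) ^ a))
    {z : ℂ} {r d : ℝ} (hr : 0 < r) (hrd : r ≤ d) (hb : Metric.ball z d ⊆ D) :
    (μ : Measure Cu) (EvQ z r (d / 2)) ≤ ENNReal.ofReal (C * (r / d) ^ a) := by
  have hmono : Monotone (fun j : ℕ => EvH z r (d / 2) (1 / ((j : ℝ) + 1))) := by
    intro i j hij
    apply EvH_mono
    have : (i : ℝ) ≤ j := by exact_mod_cast hij
    exact one_div_le_one_div_of_le (by positivity) (by linarith)
  unfold EvQ
  rw [hmono.measure_iUnion]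
  refine iSup_le fun j => ?_
  refine (ProbabilityMeasure.le_liminf_measure_open_of_tendsto hμ (hOP _ _ _ _)).trans ?_
  refine liminf_le_of_frequently_le (Eventually.frequently ?_)
  have hj : (0:ℝ) < 1 / ((j : ℝ) + 1) := by positivity
  exact hP z r d _ hr hrd hb hj

theorem t_LIM : S_LIM := by
  intro hOP hEV D hD C a hC ha ha2 μs μ hμ hP
  set en : ℕ → ℝ := fun l => 1 / ((l : ℝ) + 1) with hen
  have hen0 : ∀ l, 0 < en l := fun l => by positivity
  set dn : ℕ → ℕ → ℝ := fun l n => min (en l) (1 / ((n : ℝ) + 1)) with hdn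
  have hdn0 : ∀ l n, 0 < dn l n := fun l n => lt_min (hen0 l) (by positivity)
  set Dm : ℕ → Set ℂ := fun M => D ∩ {z : ℂ | |z.re| < M ∧ |z.im| < M} with hDm
  have hDmo : ∀ M, IsOpen (Dm M) := by
    intro M
    have e1 : IsOpen {z : ℂ | |z.re| < (M : ℝ)} :=
      isOpen_lt (continuous_abs.comp Complex.continuous_re) continuous_const
    have e2 : IsOpen {z : ℂ | |z.im| < (M : ℝ)} :=
      isOpen_lt (continuous_abs.comp Complex.continuous_im) continuous_const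
    exact hD.inter (e1.inter e2)
  have hDmD : ∀ M, Dm M ⊆ D := fun M => Set.inter_subset_left
  have h1 : ∀ M l n j : ℕ, ∀ᵐ p ∂(μ : Measure Cu),
      dimH (SOH (en l) p ∩ H934F.t10_A (Dm M) (dn l n)) ≤
        ENNReal.ofReal (2 - a + 1 / ((j : ℝ) + 1)) := by
    intro M l n j
    have hj : 0 < 1 / ((j : ℝ) + 1) := by positivity
    refine one_scaleO hOP hEV (M := M) (a := a) (C := C) (fun z hz => hz.2) (hdn0 l n)
      (min_le_left _ _) ?_ (by linarith) (by linarith)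
    intro z r hr hrd hb
    exact mu_le hOP hμ hP hr hrd (hb.trans (hDmD M))
  have h2 : ∀ᵐ p ∂(μ : Measure Cu), ∀ M l n j : ℕ,
      dimH (SOH (en l) p ∩ H934F.t10_A (Dm M) (dn l n)) ≤
        ENNReal.ofReal (2 - a + 1 / ((j : ℝ) + 1)) := by
    rw [ae_all_iff]
    intro M
    rw [ae_all_iff]
    intro l
    rw [ae_all_iff]
    intro n
    rw [ae_all_iff]
    intro j
    exact h1 M l n j
  filter_upwards [h2] with f hf
  have hsub : Fr f ∩ D ⊆
      ⋃ M : ℕ, ⋃ l : ℕ, ⋃ n : ℕ, SOH (en l) f ∩ H934F.t10_A (Dm M) (dn l n) := by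
    rintro z ⟨⟨t, hft, w, hw, hz⟩, hzD⟩
    obtain ⟨M, hM⟩ := exists_nat_gt (max |z.re| |z.im|)
    rw [max_lt_iff] at hM
    have hzM : z ∈ Dm M := ⟨hzD, hM.1, hM.2⟩
    obtain ⟨ε, hε, hb⟩ := Metric.isOpen_iff.mp (hDmo M) z hzM
    obtain ⟨n, hn⟩ := exists_nat_one_div_lt hε
    -- the component of `w` is open, hence a point of its frontier is not `w`
    have hcomp : IsCompact (f '' Set.Iic t) := (isClosed_Iic (a := t)).isCompact.image f.continuous
    have hopen : IsOpen (connectedComponentIn (f '' Set.Iic t)ᶜ w) :=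
      hcomp.isClosed.isOpen_compl.connectedComponentIn
    have hwz : w ≠ z := by
      rintro rfl
      have h3 : w ∈ connectedComponentIn (f '' Set.Iic t)ᶜ w := mem_connectedComponentIn hw
      rw [hopen.frontier_eq] at hz
      exact hz.2 h3
    have hpos : 0 < min (dist (f t) z) (dist w z) := lt_min (dist_pos.2 hft) (dist_pos.2 hwz)
    obtain ⟨l, hl⟩ := exists_nat_one_div_lt hpos
    rw [lt_min_iff] at hl
    refine Set.mem_iUnion.mpr ⟨M, Set.mem_iUnion.mpr ⟨l, Set.mem_iUnion.mpr ⟨n,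
      ⟨t, w, hl.1.le, hw, hl.2.le, hz⟩,
      (Metric.ball_subset_ball ((min_le_right _ _).trans hn.le)).trans hb⟩⟩⟩
  refine (dimH_mono hsub).trans ?_
  rw [dimH_iUnion]
  refine iSup_le fun M => ?_
  rw [dimH_iUnion]
  refine iSup_le fun l => ?_
  rw [dimH_iUnion]
  refine iSup_le fun n => ?_
  have hlim : Tendsto (fun j : ℕ => ENNReal.ofReal (2 - a + 1 / ((j : ℝ) + 1))) atTop
      (𝓝 (ENNReal.ofReal (2 - a + 0))) :=
    ENNReal.tendsto_ofReal (tendsto_const_nhds.add tendsto_one_div_add_atTop_nhds_zero_nat)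
  rw [add_zero] at hlim
  exact ge_of_tendsto' hlim (fun j => hf M l n j)

end Pool.Agent.W743.FR
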